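import Pool.Agent.Run7.h450.CS.Iface

/-! Piece ALG of helper450's project CL (MP_9fb148_an). -/

set_option autoImplicit false
open Matrix
open Run7.h450.CL

namespace Run7.h78.CL

theorem wd_succ {R : Type} [Monoid R] {p : ℕ} (u : Fin (p + 1) → R) :
    wd u = u 0 * wd (fun k : Fin p => u k.succ) := by
  unfold wd
  rw [List.ofFn_succ, List.prod_cons]

theorem wd_last {R : Type} [Monoid R] {p : ℕ} (u : Fin (p + 1) → R) :
    wd u = wd (fun k : Fin p => u k.castSucc) * u (Fin.last p) := by
  unfold wd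
  rw [List.ofFn_succ', List.concat_eq_append, List.prod_append]
  simp

theorem tr_rot (K : Type) [Fintype K] [DecidableEq K] (p : ℕ) (W : Matrix K K ℂ)
    (X : Fin (p + 1) → Matrix K K ℂ) (hW : ∀ j, W * X j = X j * W)
    (σ : Equiv.Perm (Fin (p + 1))) :
    (W * wd (fun k : Fin (p + 1) => X ((σ * finRotate (p + 1)) k))).trace =
      (W * wd (fun k : Fin (p + 1) => X (σ k))).trace := by
  rw [wd_last, wd_succ (fun k : Fin (p + 1) => X (σ k))]
  have h1 : ∀ k : Fin p, (σ * finRotate (p + 1)) k.castSucc = σ k.succ := by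
    intro k
    simp [Equiv.Perm.mul_apply]
  have h2 : (σ * finRotate (p + 1)) (Fin.last p) = σ 0 := by
    simp [Equiv.Perm.mul_apply]
  simp only [h1, h2]
  rw [← Matrix.mul_assoc, Matrix.trace_mul_comm, ← Matrix.mul_assoc, ← hW, Matrix.mul_assoc]

theorem t_ALG : S_ALG := by
  intro K _ _ p W X hp hW
  have hZ : ∑ σ : Equiv.Perm (Fin (p + 1)),
      sg σ * (W * wd (fun k : Fin (p + 1) => X (σ k))).trace = 0 := by
    have h : ∑ σ : Equiv.Perm (Fin (p + 1)),
        sg σ * (W * wd (fun k : Fin (p + 1) => X (σ k))).trace =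
        ∑ σ : Equiv.Perm (Fin (p + 1)),
          sg (σ * finRotate (p + 1)) *
            (W * wd (fun k : Fin (p + 1) => X ((σ * finRotate (p + 1)) k))).trace :=
      (Fintype.sum_equiv (Equiv.mulRight (finRotate (p + 1))) _ _ (fun σ => rfl)).symm
    have h' : ∀ σ : Equiv.Perm (Fin (p + 1)), sg (σ * finRotate (p + 1)) = - sg σ := by
      intro σ
      unfold sg
      rw [Equiv.Perm.sign_mul, sign_finRotate, Nat.add_sub_cancel, hp.neg_one_pow]
      simp
    have h3 : ∑ σ : Equiv.Perm (Fin (p + 1)), sg (σ * finRotate (p + 1)) *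
        (W * wd (fun k : Fin (p + 1) => X ((σ * finRotate (p + 1)) k))).trace =
        - ∑ σ : Equiv.Perm (Fin (p + 1)),
          sg σ * (W * wd (fun k : Fin (p + 1) => X (σ k))).trace := by
      rw [← Finset.sum_neg_distrib]
      exact Finset.sum_congr rfl (fun σ _ => by rw [h' σ, tr_rot K p W X hW σ, neg_mul])
    rw [h3] at h
    exact self_eq_neg.mp h
  have hl : ∀ l : Fin p, ∑ τ : Equiv.Perm (Fin (p + 1)), sg τ *
      (W * wd (fun k : Fin (p + 1) => X (τ (Fin.cycleRange l.castSucc k)))).trace = 0 := by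
    intro l
    have h : ∑ τ : Equiv.Perm (Fin (p + 1)),
        sg (τ * Fin.cycleRange l.castSucc) *
          (W * wd (fun k : Fin (p + 1) => X ((τ * Fin.cycleRange l.castSucc) k))).trace = 0 := by
      rw [← hZ]
      exact Fintype.sum_equiv (Equiv.mulRight (Fin.cycleRange l.castSucc)) _ _ (fun σ => rfl)
    have h' : ∀ τ : Equiv.Perm (Fin (p + 1)), sg (τ * Fin.cycleRange l.castSucc) =
        sg (Fin.cycleRange l.castSucc) * sg τ := by
      intro τ
      unfold sg
      rw [Equiv.Perm.sign_mul]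
      push_cast
      ring
    have h0 : sg (Fin.cycleRange l.castSucc) ≠ 0 := by
      unfold sg
      rcases Int.units_eq_one_or (Equiv.Perm.sign (Fin.cycleRange l.castSucc)) with h | h <;>
        rw [h] <;> simp
    have h2 : sg (Fin.cycleRange l.castSucc) * ∑ τ : Equiv.Perm (Fin (p + 1)), sg τ *
        (W * wd (fun k : Fin (p + 1) => X (τ (Fin.cycleRange l.castSucc k)))).trace = 0 := by
      rw [Finset.mul_sum, ← h]
      refine Finset.sum_congr rfl (fun τ _ => ?_)
      rw [h' τ, mul_assoc]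
      rfl
    exact (mul_eq_zero.mp h2).resolve_left h0
  have e : ∑ τ : Equiv.Perm (Fin (p + 1)), sg τ * ∑ l : Fin p,
      (W * wd (fun k : Fin (p + 1) => X (τ (Fin.cycleRange l.castSucc k)))).trace =
      ∑ l : Fin p, ∑ τ : Equiv.Perm (Fin (p + 1)), sg τ *
      (W * wd (fun k : Fin (p + 1) => X (τ (Fin.cycleRange l.castSucc k)))).trace := by
    rw [Finset.sum_comm]
    exact Finset.sum_congr rfl (fun τ _ => Finset.mul_sum _ _ _)
  rw [e]
  exact Finset.sum_eq_zero (fun l _ => hl l)

end Run7.h78.CL
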