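import Pool.Agent.Run7.h450.CS.Iface

set_option autoImplicit false
open Filter Topology Matrix MeasureTheory

namespace Run7.h450.CL

theorem sl_smul {K : Type} [Fintype K] [DecidableEq K] {m : ℕ} (γ : Fin m → Matrix K K ℂ)
    (x : Fin m → ℝ) (s : ℝ) : sl γ (s • x) = (s : ℂ) • sl γ x := by
  simp only [sl, Pi.smul_apply, smul_eq_mul, Complex.ofReal_mul, mul_smul, Finset.smul_sum]

theorem t_CORE (hG : S_GAM) (hF : S_FLUX) (hL : S_LIM) (h0 : S_FL0) : S_CORE := by
  intro K _ _ _ p γ B hp hγ hB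
  by_contra hc
  push Not at hc
  set D0 := ∑ j, B j * γ j with hD
  obtain ⟨hg, -⟩ := hG K p γ hp hγ
  have hBw : ∀ j, ∀ l : List (Fin (p + 1)), B j * (l.map γ).prod = (l.map γ).prod * B j := by
    intro j l
    induction l with
    | nil => simp
    | cons a l ih =>
      rw [List.map_cons, List.prod_cons, ← mul_assoc, hB j a, mul_assoc, ih, mul_assoc]
  have hBG : ∀ j, B j * Gam γ = Gam γ * B j := by
    intro j
    have := hBw j (List.finRange (p + 1))
    unfold Gam wd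
    rw [List.ofFn_eq_map]
    exact this
  have hGD : Gam γ * D0 = -(D0 * Gam γ) := by
    rw [hD, Finset.mul_sum, Finset.sum_mul, ← Finset.sum_neg_distrib]
    refine Finset.sum_congr rfl fun j _ => ?_
    rw [← mul_assoc, ← hBG, mul_assoc, hg, mul_neg, mul_assoc]
  have hne : ∀ (s : ℝ), 0 < s → ∀ x : Fin (p + 1) → ℝ, ((s : ℂ) • D0 - sl γ x).det ≠ 0 := by
    intro s hs x
    have e : (s : ℂ) • D0 - sl γ x = (s : ℂ) • (D0 - sl γ (s⁻¹ • x)) := by
      rw [smul_sub, sl_smul, smul_smul, ← Complex.ofReal_mul, mul_inv_cancel₀ hs.ne',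
        Complex.ofReal_one, one_smul]
    rw [e, Matrix.det_smul]
    exact mul_ne_zero (pow_ne_zero _ (by exact_mod_cast hs.ne')) (hc _)
  have hfl : ∀ s : ℝ, 0 < s → flux ((s : ℂ) • D0) γ = 0 := by
    intro s hs
    refine hF K p γ ((s : ℂ) • D0) hp hγ ?_ (hne s hs)
    rw [mul_smul_comm, hGD, smul_mul_assoc, smul_neg]
  have hlim := hL K p γ D0 hp hγ hne
  have hlim0 : Tendsto (fun s : ℝ => flux ((s : ℂ) • D0) γ) (𝓝[>] 0) (𝓝 0) := by
    refine Tendsto.congr' ?_ tendsto_const_nhds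
    filter_upwards [self_mem_nhdsWithin] with s hs
    exact (hfl s hs).symm
  exact h0 K p γ hp hγ (tendsto_nhds_unique hlim hlim0)

end Run7.h450.CL
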