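import Pool.Agent.Run7.h450.CS.Iface

set_option autoImplicit false
open Matrix

namespace Run7.h884.CL

open Run7.h450.CL

theorem wd_eq {K : Type} [Fintype K] [DecidableEq K] {m : ℕ} (u : Fin m → Matrix K K ℂ) :
    wd u = MultilinearMap.mkPiAlgebraFin ℂ m (Matrix K K ℂ) u := by
  rw [MultilinearMap.mkPiAlgebraFin_apply]
  rfl

theorem wd_sl {K : Type} [Fintype K] [DecidableEq K] {m : ℕ} (γ : Fin m → Matrix K K ℂ)
    (a : Fin m → Fin m → ℝ) : wd (fun k => sl γ (a k)) =
      ∑ f : Fin m → Fin m, (∏ k, ((a k (f k) : ℝ) : ℂ)) • wd (fun k => γ (f k)) := by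
  rw [wd_eq]
  unfold sl
  rw [MultilinearMap.map_sum]
  refine Finset.sum_congr rfl fun f _ => ?_
  rw [wd_eq]
  exact MultilinearMap.map_smul_univ _ _ _

theorem t_DET : S_SGN → S_NINJ → S_DET := by
  intro hSGN hNINJ K _ _ p γ hp hγ a
  rw [wd_sl, Finset.mul_sum, Matrix.trace_sum]
  rw [← Fintype.sum_of_injective (fun σ : Equiv.Perm (Fin (p + 1)) => (σ : Fin (p + 1) → Fin (p + 1)))
    DFunLike.coe_injective
    (fun σ : Equiv.Perm (Fin (p + 1)) => (Gam γ * Gam γ).trace *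
      (sg σ * ∏ k, ((a k (σ k) : ℝ) : ℂ)))]
  · rw [← Finset.mul_sum, ← Matrix.det_transpose, Matrix.det_apply', ]
    congr 1
    push_cast
    refine Finset.sum_congr rfl fun σ _ => ?_
    rfl
  · intro f hf
    have h1 : ¬ Function.Injective f := by
      intro hinj
      exact hf ⟨Equiv.ofBijective f (Finite.injective_iff_bijective.1 hinj), rfl⟩
    rw [Matrix.mul_smul, Matrix.trace_smul, hNINJ K p γ hp hγ f h1, smul_zero]
  · intro σ
    rw [Matrix.mul_smul, Matrix.trace_smul, hSGN K (p + 1) γ hγ σ, Matrix.mul_smul,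
      Matrix.trace_smul, smul_eq_mul, smul_eq_mul]
    show (Gam γ * Gam γ).trace * _ = _ * (_ * (Gam γ * Gam γ).trace)
    ring

end Run7.h884.CL
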