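import Pool.Agent.Run7.h450.CS.Iface

/-!
Project CL (helper450), piece DIVZ.
-/

set_option autoImplicit false
open Filter Topology Matrix MeasureTheory

namespace Run7.h459.CL

open Run7.h450.CL

theorem t_DIVZ : S_WDER → S_ALG → S_GAM → S_DIVZ := by
  intro hWD hALG hGAM K _ _ p γ D0 hp hγ hD x hdet
  obtain ⟨hG1, _⟩ := hGAM K p γ hp hγ
  have hsl : Gam γ * sl γ x = -(sl γ x * Gam γ) := by
    unfold sl
    rw [Finset.mul_sum, Finset.sum_mul, ← Finset.sum_neg_distrib]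
    refine Finset.sum_congr rfl fun j _ => ?_
    rw [Matrix.mul_smul, Matrix.smul_mul, hG1 j, smul_neg]
  have hWA : Gam γ * (D0 - sl γ x) = -((D0 - sl γ x) * Gam γ) := by
    rw [mul_sub, sub_mul, hD, hsl]
    abel
  have hu : IsUnit (D0 - sl γ x).det := isUnit_iff_ne_zero.mpr hdet
  have hWG : Gam γ * (D0 - sl γ x)⁻¹ = -((D0 - sl γ x)⁻¹ * Gam γ) := by
    have h1 : (D0 - sl γ x)⁻¹ * (Gam γ * (D0 - sl γ x)) * (D0 - sl γ x)⁻¹ =
        (D0 - sl γ x)⁻¹ * (-((D0 - sl γ x) * Gam γ)) * (D0 - sl γ x)⁻¹ := by rw [hWA]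
    have h2 : (D0 - sl γ x)⁻¹ * (Gam γ * (D0 - sl γ x)) * (D0 - sl γ x)⁻¹ =
        (D0 - sl γ x)⁻¹ * Gam γ := by
      rw [mul_assoc, mul_assoc, Matrix.mul_nonsing_inv _ hu, mul_one]
    have h3 : (D0 - sl γ x)⁻¹ * (-((D0 - sl γ x) * Gam γ)) * (D0 - sl γ x)⁻¹ =
        -(Gam γ * (D0 - sl γ x)⁻¹) := by
      rw [mul_neg, neg_mul, ← mul_assoc, Matrix.nonsing_inv_mul _ hu, one_mul]
    rw [h2, h3] at h1
    rw [h1, neg_neg]
  have hcomm : ∀ j, Gam γ * ((D0 - sl γ x)⁻¹ * γ j) = ((D0 - sl γ x)⁻¹ * γ j) * Gam γ := by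
    intro j
    rw [← mul_assoc, hWG, neg_mul, mul_assoc, hG1 j, mul_neg, neg_neg, mul_assoc]
  have hall := fun τ : Equiv.Perm (Fin (p + 1)) =>
    hWD K p γ D0 x hdet (fun k : Fin p => τ k.succ)
  choose Lτ hL1 hL2 using hall
  let Li : Fin (p + 1) → ((Fin (p + 1) → ℝ) →L[ℝ] ℂ) := fun i =>
    ∑ τ : Equiv.Perm (Fin (p + 1)), if τ 0 = i then sg τ • Lτ τ else 0
  refine ⟨ContinuousLinearMap.pi Li, ?_, ?_⟩
  · rw [hasFDerivAt_pi]
    intro i
    show HasFDerivAt (fun x => VF D0 γ x i) (Li i) x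
    unfold VF
    refine HasFDerivAt.fun_sum fun τ _ => ?_
    by_cases h : τ 0 = i
    · simp only [h, if_true]
      exact (hL1 τ).const_mul (sg τ)
    · simp only [h, if_false]
      exact hasFDerivAt_const _ _
  · have h1 : ∀ i, (ContinuousLinearMap.pi Li) (Pi.single i 1) i =
        ∑ τ : Equiv.Perm (Fin (p + 1)), if τ 0 = i then sg τ * Lτ τ (Pi.single i 1) else 0 := by
      intro i
      show Li i (Pi.single i 1) = _
      simp only [Li, ContinuousLinearMap.sum_apply]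
      refine Finset.sum_congr rfl fun τ _ => ?_
      split_ifs
      · rfl
      · rfl
    simp_rw [h1]
    rw [Finset.sum_comm]
    have h2 : ∀ τ : Equiv.Perm (Fin (p + 1)),
        (∑ i, if τ 0 = i then sg τ * Lτ τ (Pi.single i 1) else 0) =
          sg τ * ∑ l : Fin p, (Gam γ * wd (fun k : Fin (p + 1) =>
            (fun j => (D0 - sl γ x)⁻¹ * γ j) (τ (Fin.cycleRange l.castSucc k)))).trace := by
      intro τ
      rw [Finset.sum_ite_eq, if_pos (Finset.mem_univ _), hL2]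
      have h3 : (Fin.cons (τ 0) (fun k : Fin p => τ k.succ) : Fin (p + 1) → Fin (p + 1)) = τ :=
        Fin.cons_self_tail (α := fun _ => Fin (p + 1)) (τ : Fin (p + 1) → Fin (p + 1))
      rw [h3]
    simp_rw [h2]
    exact hALG K p (Gam γ) (fun j => (D0 - sl γ x)⁻¹ * γ j) hp hcomm

end Run7.h459.CL
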