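import Pool.Agent.Run7.h450.CS.Iface

set_option autoImplicit false
open Filter Topology Matrix MeasureTheory

namespace Run7.h943.CL

open Run7.h450.CL

/-- **EVEN** -/
theorem t_EVEN (h : S_CORE) : S_EVEN := by
  intro n p m hn hm hp A γ hsq hanti
  haveI : Nonempty (Fin n × Fin m) := ⟨⟨⟨0, hn⟩, ⟨0, hm⟩⟩⟩
  have mulk : ∀ (a b : Matrix (Fin n) (Fin n) ℂ) (c d : Matrix (Fin m) (Fin m) ℂ),
      Matrix.kronecker a c * Matrix.kronecker b d = Matrix.kronecker (a * b) (c * d) :=
    fun a b c d => (Matrix.mul_kronecker_mul a b c d).symm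
  have hC : Cl (fun j => Matrix.kronecker (1 : Matrix (Fin n) (Fin n) ℂ) (γ j)) := by
    constructor
    · intro j
      show Matrix.kronecker _ _ * Matrix.kronecker _ _ = _
      rw [mulk, hsq, one_mul]
      exact Matrix.one_kronecker_one
    · intro j k hjk
      show Matrix.kronecker _ _ * Matrix.kronecker _ _ = -(Matrix.kronecker _ _ * Matrix.kronecker _ _)
      rw [mulk, mulk, hanti j k hjk]
      ext a b
      simp [Matrix.kronecker, Matrix.kroneckerMap_apply]
  obtain ⟨x, hx⟩ := h (Fin n × Fin m) p (fun j => Matrix.kronecker (1 : Matrix (Fin n) (Fin n) ℂ) (γ j))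
    (fun j => Matrix.kronecker (A j) (1 : Matrix (Fin m) (Fin m) ℂ)) hp hC (by
      intro j k
      show Matrix.kronecker _ _ * Matrix.kronecker _ _ = Matrix.kronecker _ _ * Matrix.kronecker _ _
      rw [mulk, mulk, one_mul, one_mul, mul_one, mul_one])
  refine ⟨x, ?_⟩
  rw [← hx]
  congr 1
  unfold sl
  rw [← Finset.sum_sub_distrib]
  refine Finset.sum_congr rfl fun j _ => ?_
  show _ = Matrix.kronecker _ _ * Matrix.kronecker _ _ - _
  rw [mulk, mul_one, one_mul]
  ext a b
  simp [Matrix.kronecker, Matrix.kroneckerMap_apply, sub_mul, mul_assoc]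

end Run7.h943.CL
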