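import Pool.Agent.Run7.h450.CS.Iface

/-!
# Project CL: the flux of the field of `D₀ = 0` is not zero (piece FL0)
-/

set_option autoImplicit false
open Filter Topology Matrix MeasureTheory

namespace Run7.h262.CL

open Run7.h450.CL

/-- the positive function on the faces of the cube -/
noncomputable def hh {p : ℕ} (y : Fin p → ℝ) : ℝ := 1 / (1 + ∑ k, y k ^ 2) ^ ((p + 1) / 2)

theorem hh_pos {p : ℕ} (y : Fin p → ℝ) : 0 < hh y := by
  unfold hh
  have : 0 ≤ ∑ k, y k ^ 2 := Finset.sum_nonneg fun k _ => sq_nonneg _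
  positivity

theorem hh_cont {p : ℕ} : Continuous (hh : (Fin p → ℝ) → ℝ) := by
  unfold hh
  refine continuous_const.div ?_ ?_
  · exact (continuous_const.add
      (continuous_finsetSum _ fun k _ => (continuous_apply k).pow 2)).pow _
  · intro y
    have : 0 ≤ ∑ k, y k ^ 2 := Finset.sum_nonneg fun k _ => sq_nonneg _
    positivity

theorem int_pos (p : ℕ) :
    0 < ∫ y in Set.Icc (fun _ => -1 : Fin p → ℝ) (fun _ => 1), hh y := by
  have hi : IntegrableOn (hh : (Fin p → ℝ) → ℝ) (Set.Icc (fun _ => -1) (fun _ => 1)) :=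
    hh_cont.continuousOn.integrableOn_compact isCompact_Icc
  rw [setIntegral_pos_iff_support_of_nonneg_ae
    (Filter.Eventually.of_forall fun y => (hh_pos y).le) hi]
  have h1 : Function.support (hh : (Fin p → ℝ) → ℝ) = Set.univ := by
    ext y
    simp only [Function.mem_support, Set.mem_univ, iff_true]
    exact (hh_pos y).ne'
  rw [h1, Set.univ_inter, Real.volume_Icc_pi]
  refine pos_iff_ne_zero.2 (Finset.prod_ne_zero_iff.2 fun i _ => ?_)
  rw [Ne, ENNReal.ofReal_eq_zero]
  norm_num

/-- **FL0** -/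
theorem t_FL0 (hV : S_V0) (hG : S_GAM) : S_FL0 := by
  intro K _ _ _ p γ hp hγ
  obtain ⟨c, hc, h⟩ := hV K p γ hp hγ
  have hcard : (Fintype.card K : ℂ) ≠ 0 := Nat.cast_ne_zero.2 Fintype.card_ne_zero
  have htr : (Gam γ * Gam γ).trace ≠ 0 := by
    rcases (hG K p γ hp hγ).2 with h1 | h1
    · rw [h1, Matrix.trace_one]
      exact hcard
    · rw [h1, Matrix.trace_neg, Matrix.trace_one, neg_ne_zero]
      exact hcard
  have hc0 := hc htr
  have key : ∀ (i : Fin (p + 1)) (a : ℝ), a ^ 2 = 1 → ∀ y : Fin p → ℝ,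
      VF 0 γ (i.insertNth a y) i = c * ((a * hh y : ℝ) : ℂ) := by
    intro i a ha y
    have hx : (i.insertNth a y : Fin (p + 1) → ℝ) i = a := Fin.insertNth_apply_same _ _ _
    have hne : (i.insertNth a y : Fin (p + 1) → ℝ) ≠ 0 := by
      intro h0
      rw [h0, Pi.zero_apply] at hx
      rw [← hx] at ha
      norm_num at ha
    rw [h _ hne i, hx]
    congr 2
    rw [Fin.sum_univ_succAbove _ i]
    simp only [Fin.insertNth_apply_same, Fin.insertNth_apply_succAbove, ha]
    unfold hh
    ring
  have e : flux (0 : Matrix K K ℂ) γ = ∑ _i : Fin (p + 1), 2 * c *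
      ((∫ y in Set.Icc (fun _ => -1 : Fin p → ℝ) (fun _ => 1), hh y : ℝ) : ℂ) := by
    unfold flux
    refine Finset.sum_congr rfl fun i _ => ?_
    simp only [key i 1 (by norm_num), key i (-1) (by norm_num)]
    rw [integral_const_mul, integral_const_mul, integral_complex_ofReal, integral_complex_ofReal]
    simp only [integral_const_mul]
    push_cast
    ring
  rw [e, Finset.sum_const, Finset.card_univ, Fintype.card_fin, nsmul_eq_mul]
  refine mul_ne_zero (by exact_mod_cast Nat.succ_ne_zero p) (mul_ne_zero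
    (mul_ne_zero two_ne_zero hc0) ?_)
  exact_mod_cast (int_pos p).ne'

end Run7.h262.CL
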