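import Pool.Agent.Run7.h450.CS.Iface

set_option autoImplicit false
open Matrix MeasureTheory

namespace Run7.h884.CL

open Run7.h450.CL

theorem t_FLUX : S_DIVZ → S_FLUX := by
  intro hDIVZ K _ _ p γ D0 hp hγ hΓ hdet
  choose L hL1 hL2 using fun x => hDIVZ K p γ D0 hp hγ hΓ x (hdet x)
  have hc : Continuous (VF D0 γ) := continuous_iff_continuousAt.2 fun x => (hL1 x).continuousAt
  have h := integral_divergence_of_hasFDerivAt_off_countable
    (a := (fun _ => -1 : Fin (p + 1) → ℝ)) (b := fun _ => 1)
    (fun _ => by norm_num) (VF D0 γ) L ∅ Set.countable_empty hc.continuousOn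
    (fun x _ => hL1 x) (by simp only [hL2]; exact integrableOn_zero)
  simp only [hL2, integral_zero] at h
  exact h.symm

end Run7.h884.CL
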