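import Mathlib

/-!
# Project CL (MP_9fb148_an, S05597): the Clifford spectrum is never empty. The pieces.

Each piece is `theorem t_XX : S_XX` (or `S_A → S_B → S_XX` for the listed hypotheses) in namespace
`Run7.<you>.CL`. `m = p + 1` is always even (`Odd p`).
-/

set_option autoImplicit false
open Filter Topology Matrix MeasureTheory

namespace Run7.h450.CL

/-- Clifford relations -/
structure Cl {K : Type} [Fintype K] [DecidableEq K] {m : ℕ} (γ : Fin m → Matrix K K ℂ) : Prop where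
  sq : ∀ j, γ j * γ j = 1
  anti : ∀ j k, j ≠ k → γ j * γ k = -(γ k * γ j)

/-- ordered product `u 0 * u 1 * ⋯ * u (p-1)` -/
def wd {R : Type} [Monoid R] {p : ℕ} (u : Fin p → R) : R := (List.ofFn u).prod

section
variable {K : Type} [Fintype K] [DecidableEq K]

/-- `Γ = γ_0 γ_1 ⋯` -/
def Gam {m : ℕ} (γ : Fin m → Matrix K K ℂ) : Matrix K K ℂ := wd γ

/-- `x ↦ ∑ x_j γ_j` -/
noncomputable def sl {m : ℕ} (γ : Fin m → Matrix K K ℂ) (x : Fin m → ℝ) : Matrix K K ℂ :=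
  ∑ j, ((x j : ℝ) : ℂ) • γ j

/-- signature as a complex number -/
noncomputable def sg {m : ℕ} (τ : Equiv.Perm (Fin m)) : ℂ := ((Equiv.Perm.sign τ : ℤ) : ℂ)

/-- the vector field `V_i = ∑_{τ 0 = i} sgn(τ) tr(Γ ∏_{k=1}^{p} (D₀ - x̸)⁻¹ γ_{τ k})` -/
noncomputable def VF {p : ℕ} (D0 : Matrix K K ℂ) (γ : Fin (p + 1) → Matrix K K ℂ)
    (x : Fin (p + 1) → ℝ) (i : Fin (p + 1)) : ℂ :=
  ∑ τ : Equiv.Perm (Fin (p + 1)), if τ 0 = i then
    sg τ * (Gam γ * wd (fun k : Fin p => (D0 - sl γ x)⁻¹ * γ (τ k.succ))).trace else 0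

/-- the flux through the boundary of `[-1,1]^m` -/
noncomputable def flux {p : ℕ} (D0 : Matrix K K ℂ) (γ : Fin (p + 1) → Matrix K K ℂ) : ℂ :=
  ∑ i : Fin (p + 1), ((∫ y in Set.Icc (fun _ => -1 : Fin p → ℝ) (fun _ => 1),
      VF D0 γ (i.insertNth 1 y) i) -
    ∫ y in Set.Icc (fun _ => -1 : Fin p → ℝ) (fun _ => 1), VF D0 γ (i.insertNth (-1) y) i)

end

/-- **GAM** (60 lines). For `m = p+1` even `Γ` anticommutes with every `γ_j`, and `Γ² = ±1`.
(Pass `γ_j` through the `m` factors of `Γ`: `m - 1` signs. `Γ²`: reverse the order; or: `Γ²` is `±1`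
by induction on the number of factors.) -/
def S_GAM : Prop :=
  ∀ (K : Type) [Fintype K] [DecidableEq K] (p : ℕ) (γ : Fin (p + 1) → Matrix K K ℂ),
    Odd p → Cl γ → (∀ j, Gam γ * γ j = -(γ j * Gam γ)) ∧ (Gam γ * Gam γ = 1 ∨ Gam γ * Gam γ = -1)

/-- **SGN** (80 lines). Reordering anticommuting factors (adjacent transpositions generate:
`Equiv.Perm.mclosure_swap_castSucc_succ`). -/
def S_SGN : Prop :=
  ∀ (K : Type) [Fintype K] [DecidableEq K] (m : ℕ) (γ : Fin m → Matrix K K ℂ), Cl γ →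
    ∀ σ : Equiv.Perm (Fin m), wd (fun k => γ (σ k)) = sg σ • wd γ

/-- **NINJ** (50 lines, uses GAM). If `f` is not injective some `j` is not in its range; conjugate by
`γ_j`: `γ_j Γ γ_j = -Γ`, `γ_j γ_{f k} γ_j = -γ_{f k}` (`m` even factors), so the trace equals minus
itself. -/
def S_NINJ : Prop :=
  ∀ (K : Type) [Fintype K] [DecidableEq K] (p : ℕ) (γ : Fin (p + 1) → Matrix K K ℂ),
    Odd p → Cl γ → ∀ f : Fin (p + 1) → Fin (p + 1), ¬ Function.Injective f →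
    (Gam γ * wd (fun k => γ (f k))).trace = 0

/-- **DET** (90 lines, uses SGN NINJ). Expand each `sl γ (a k)` (multilinearity): the sum over all
`f : Fin m → Fin m` of `∏ a k (f k) · tr(Γ wd(γ ∘ f))`; only the bijective `f` count
(`Matrix.det_apply`, `Matrix.det_transpose`). -/
def S_DET : Prop :=
  ∀ (K : Type) [Fintype K] [DecidableEq K] (p : ℕ) (γ : Fin (p + 1) → Matrix K K ℂ),
    Odd p → Cl γ → ∀ a : Fin (p + 1) → Fin (p + 1) → ℝ,
    (Gam γ * wd (fun k => sl γ (a k))).trace =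
      (Gam γ * Gam γ).trace * (((Matrix.of a).det : ℝ) : ℂ)

/-- **WEXP** (100 lines, uses DET). For distinct directions: with `u = sl γ x`,
`u γ_a u = 2 x_a u - |x|² γ_a`. So the word `u γ_{τ1} u γ_{τ2} ⋯ u γ_{τp}` (`p` odd) is
`(u γ_{τ1} u) γ_{τ2} (u γ_{τ3} u) γ_{τ4} ⋯ u γ_{τp}`; replacing one bracket by its summand `2 x_a u`
gives a word with two letters `u` (this one and the last one) and `m` letters in all: trace against
`Γ` zero by DET (two equal rows). What is left is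
`(-|x|²)^((p-1)/2) tr(Γ γ_{τ1} ⋯ γ_{τ(p-1)} u γ_{τp})`, by DET a determinant whose rows are
`e_{τ1}, …, e_{τ(p-1)}, x, e_{τp}`: it is `x_{τ0} sgn(τ)` (move `x` to the front: `p-1` even
transpositions). (Suggestion: prove for all `q`, `2 q + 1 ≤ p`, by induction that the trace equals
`(-|x|²)^q` times the trace of the word with the first `q` brackets replaced.) -/
def S_WEXP : Prop :=
  ∀ (K : Type) [Fintype K] [DecidableEq K] (p : ℕ) (γ : Fin (p + 1) → Matrix K K ℂ),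
    Odd p → Cl γ → ∀ (x : Fin (p + 1) → ℝ) (τ : Equiv.Perm (Fin (p + 1))),
    (Gam γ * wd (fun k : Fin p => sl γ x * γ (τ k.succ))).trace =
      (Gam γ * Gam γ).trace * sg τ * ((x (τ 0) : ℝ) : ℂ) *
        ((-(∑ j, x j ^ 2) : ℝ) : ℂ) ^ ((p - 1) / 2)

/-- **V0** (60 lines, uses WEXP). `(0 - sl γ x)⁻¹ = -|x|⁻² sl γ x`. -/
def S_V0 : Prop :=
  ∀ (K : Type) [Fintype K] [DecidableEq K] (p : ℕ) (γ : Fin (p + 1) → Matrix K K ℂ),
    Odd p → Cl γ → ∃ c : ℂ, (((Gam γ * Gam γ).trace ≠ 0) → c ≠ 0) ∧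
      ∀ (x : Fin (p + 1) → ℝ), x ≠ 0 → ∀ i,
        VF 0 γ x i = c * (((x i) / (∑ j, x j ^ 2) ^ ((p + 1) / 2) : ℝ) : ℂ)

/-- **FL0** (70 lines, uses V0 GAM). All `2 m` integrals are `± c` times the integral of a positive
continuous function, with the same sign. `tr(Γ²) = ± card K ≠ 0`. -/
def S_FL0 : Prop :=
  ∀ (K : Type) [Fintype K] [DecidableEq K] [Nonempty K] (p : ℕ)
    (γ : Fin (p + 1) → Matrix K K ℂ), Odd p → Cl γ → flux (0 : Matrix K K ℂ) γ ≠ 0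

/-- **WDER** (100 lines). Derivative of a word: `∂_v G = G (sl γ v) G` for `G = (D₀ - sl γ x)⁻¹`; the
inserted letter `G γ_i` at place `l` is `Fin.cycleRange`: the word with letters `u ∘ cycleRange l`,
`u = (G γ_i, G γ_{f 0}, …, G γ_{f (p-1)})`. (Normed algebra structure on matrices: local instances
`Matrix.linftyOpNormedRing`, `Matrix.linftyOpNormedAlgebra`; `hasFDerivAt_ringInverse`,
`Matrix.nonsing_inv_eq_ringInverse`.) -/
def S_WDER : Prop :=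
  ∀ (K : Type) [Fintype K] [DecidableEq K] (p : ℕ) (γ : Fin (p + 1) → Matrix K K ℂ)
    (D0 : Matrix K K ℂ) (x : Fin (p + 1) → ℝ), (D0 - sl γ x).det ≠ 0 → ∀ f : Fin p → Fin (p + 1),
    ∃ L : (Fin (p + 1) → ℝ) →L[ℝ] ℂ,
      HasFDerivAt (fun x => (Gam γ * wd (fun k : Fin p => (D0 - sl γ x)⁻¹ * γ (f k))).trace) L x ∧
      ∀ i, L (Pi.single i 1) = ∑ l : Fin p, (Gam γ * wd (fun k : Fin (p + 1) =>
        (D0 - sl γ x)⁻¹ * γ ((Fin.cons i f : Fin (p + 1) → Fin (p + 1))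
          (Fin.cycleRange l.castSucc k)))).trace

/-- **ALG** (80 lines). `Z = ∑_τ sgn(τ) tr(Γ ∏_{k<m} X_{τ k})` vanishes for matrices `X_j` commuting
with `Γ`, `m` even: rotate cyclically (`tr(Γ X_0 ⋯ X_p) = tr(Γ X_p X_0 ⋯ X_{p-1})`, `finRotate` has
sign `-1`). Hence `∑_τ sgn(τ) ∑_l tr(Γ wd(X ∘ τ ∘ cycleRange l)) = ∑_l (±1) Z = 0`
(`Fin.sign_cycleRange`). -/
def S_ALG : Prop :=
  ∀ (K : Type) [Fintype K] [DecidableEq K] (p : ℕ) (W : Matrix K K ℂ)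
    (X : Fin (p + 1) → Matrix K K ℂ), Odd p → (∀ j, W * X j = X j * W) →
    ∑ τ : Equiv.Perm (Fin (p + 1)), sg τ * ∑ l : Fin p,
      (W * wd (fun k : Fin (p + 1) => X (τ (Fin.cycleRange l.castSucc k)))).trace = 0

/-- **DIVZ** (80 lines, uses WDER ALG GAM). The field is differentiable with divergence zero where
`D₀ - sl γ x` is invertible (`Γ` anticommutes with `D₀ - sl γ x`, so also with its inverse, and
commutes with `(D₀ - sl γ x)⁻¹ γ_j`). In WDER take `i = τ 0`, `f k = τ k.succ`, so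
`Fin.cons i f = τ`. -/
def S_DIVZ : Prop :=
  ∀ (K : Type) [Fintype K] [DecidableEq K] (p : ℕ) (γ : Fin (p + 1) → Matrix K K ℂ)
    (D0 : Matrix K K ℂ), Odd p → Cl γ → Gam γ * D0 = -(D0 * Gam γ) →
    ∀ x : Fin (p + 1) → ℝ, (D0 - sl γ x).det ≠ 0 →
    ∃ L : (Fin (p + 1) → ℝ) →L[ℝ] (Fin (p + 1) → ℂ),
      HasFDerivAt (VF D0 γ) L x ∧ ∑ i, L (Pi.single i 1) i = 0

/-- **FLUX** (60 lines, uses DIVZ). Divergence theorem on the cube
(`MeasureTheory.integral_divergence_of_hasFDerivAt_off_countable`). -/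
def S_FLUX : Prop :=
  ∀ (K : Type) [Fintype K] [DecidableEq K] (p : ℕ) (γ : Fin (p + 1) → Matrix K K ℂ)
    (D0 : Matrix K K ℂ), Odd p → Cl γ → Gam γ * D0 = -(D0 * Gam γ) →
    (∀ x : Fin (p + 1) → ℝ, (D0 - sl γ x).det ≠ 0) → flux D0 γ = 0

/-- **LIM** (100 lines). Continuity of the flux at `s = 0`: on the faces `x ≠ 0`, so
`det(0 - sl γ x) ≠ 0` (`(sl γ x)² = |x|²`), `(s, x) ↦ VF (s • D₀) γ x i` is continuous on the compact
set `[0,1] × face` (inverse = adjugate over determinant), dominated convergence. -/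
def S_LIM : Prop :=
  ∀ (K : Type) [Fintype K] [DecidableEq K] (p : ℕ) (γ : Fin (p + 1) → Matrix K K ℂ)
    (D0 : Matrix K K ℂ), Odd p → Cl γ →
    (∀ (s : ℝ), 0 < s → ∀ x : Fin (p + 1) → ℝ, ((s : ℂ) • D0 - sl γ x).det ≠ 0) →
    Tendsto (fun s : ℝ => flux ((s : ℂ) • D0) γ) (𝓝[>] 0) (𝓝 (flux (0 : Matrix K K ℂ) γ))

/-- **CORE** (50 lines, uses GAM FLUX LIM FL0). By contradiction: `det(s D₀ - x̸) = s^N det(D₀ - (x/s)̸)`
is nonzero for `s > 0`, so the flux of `s D₀` is `0` (FLUX; `Γ` anticommutes with `D₀ = ∑ B_j γ_j`),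
let `s → 0`. -/
def S_CORE : Prop :=
  ∀ (K : Type) [Fintype K] [DecidableEq K] [Nonempty K] (p : ℕ)
    (γ B : Fin (p + 1) → Matrix K K ℂ), Odd p → Cl γ → (∀ j k, B j * γ k = γ k * B j) →
    ∃ x : Fin (p + 1) → ℝ, (∑ j, B j * γ j - sl γ x).det = 0

/-- **EVEN** (60 lines, uses CORE). `d = p + 1` even: `K = Fin n × Fin m`, `γ' j = 1 ⊗ γ j`,
`B j = A j ⊗ 1` (`Matrix.mul_kronecker_mul`). -/
def S_EVEN : Prop :=
  ∀ (n p m : ℕ), 0 < n → 0 < m → Odd p →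
    ∀ (A : Fin (p + 1) → Matrix (Fin n) (Fin n) ℂ) (γ : Fin (p + 1) → Matrix (Fin m) (Fin m) ℂ),
      (∀ j, γ j * γ j = 1) → (∀ j k, j ≠ k → γ j * γ k = -(γ k * γ j)) →
      ∃ x : Fin (p + 1) → ℝ, (∑ j : Fin (p + 1), Matrix.kronecker
        (A j - ((x j : ℂ)) • (1 : Matrix (Fin n) (Fin n) ℂ)) (γ j)).det = 0

/-- **ODD** (120 lines, uses CORE). `d` odd. `K = (Fin n × Fin m) ⊕ (Fin n × Fin m)`, `p = d`,
`γ' j = fromBlocks 0 (1⊗γ j) (1⊗γ j) 0` for `j < d`, `γ' d = fromBlocks 0 (-i) i 0`,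
`B j = fromBlocks (A j ⊗ 1) 0 0 (A j ⊗ 1)` for `j < d`, `B d = 0`. CORE gives `x : Fin (d+1) → ℝ` with
`fromBlocks 0 (L + i μ) (L - i μ) 0` singular, `L = ∑ (A j - x j) ⊗ γ j` Hermitian, `μ = x d`; so
`L + iμ` or `L - iμ` is singular; for `μ ≠ 0` this is impossible (`L` Hermitian: kernel vector `v`,
`⟨v, L v⟩ = ∓ i μ ‖v‖²` real), so `μ = 0` and `det L = 0`. -/
def S_ODD : Prop :=
  ∀ (n d m : ℕ), 0 < n → 0 < m → Odd d →
    ∀ (A : Fin d → Matrix (Fin n) (Fin n) ℂ) (γ : Fin d → Matrix (Fin m) (Fin m) ℂ),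
      (∀ j, (A j).IsHermitian) → (∀ j, (γ j).IsHermitian) →
      (∀ j, γ j * γ j = 1) → (∀ j k, j ≠ k → γ j * γ k = -(γ k * γ j)) →
      ∃ x : Fin d → ℝ, (∑ j : Fin d, Matrix.kronecker
        (A j - ((x j : ℂ)) • (1 : Matrix (Fin n) (Fin n) ℂ)) (γ j)).det = 0

end Run7.h450.CL
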