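import Pool.Agent.Run7.h450.CS.Iface

/-!
# Project CL, piece NINJ: trace zero for words which are not injective (helper64)
-/

set_option autoImplicit false
open Matrix

namespace Run7.h64.CL

open Run7.h450.CL

theorem list_anti {R : Type} [Ring R] (g : R) (l : List R)
    (h : ∀ x ∈ l, g * x = -(x * g)) : g * l.prod = (-1) ^ l.length * (l.prod * g) := by
  induction l with
  | nil => simp
  | cons a l ih =>
    have h1 := ih fun x hx => h x (List.mem_cons_of_mem _ hx)
    have h2 := h a List.mem_cons_self
    rw [List.prod_cons, List.length_cons, ← mul_assoc, h2, neg_mul, mul_assoc, h1, pow_succ]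
    have h3 : Commute ((-1 : R) ^ l.length) a := (Commute.neg_one_left a).pow_left _
    rw [← mul_assoc a, ← h3.eq]
    simp only [mul_neg, mul_one, neg_mul, mul_assoc]

theorem t_NINJ (hG : S_GAM) : S_NINJ := by
  intro K _ _ p γ hp hγ f hf
  have hs : ¬ Function.Surjective f := fun h => hf (Finite.injective_iff_surjective.2 h)
  have hj : ∃ j, ∀ k, f k ≠ j := by
    by_contra hcon
    push Not at hcon
    exact hs hcon
  obtain ⟨j, hj⟩ := hj
  obtain ⟨h1, -⟩ := hG K p γ hp hγ
  have hW : γ j * wd (fun k => γ (f k)) = wd (fun k => γ (f k)) * γ j := by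
    have h2 := list_anti (γ j) (List.ofFn fun k => γ (f k)) (by
      intro x hx
      rw [List.mem_ofFn] at hx
      obtain ⟨k, rfl⟩ := hx
      exact hγ.anti j (f k) (hj k).symm)
    rw [List.length_ofFn, (hp.add_one).neg_one_pow, one_mul] at h2
    exact h2
  have h3 : (Gam γ * wd (fun k => γ (f k))).trace = -(Gam γ * wd (fun k => γ (f k))).trace := by
    calc (Gam γ * wd (fun k => γ (f k))).trace
        = (Gam γ * wd (fun k => γ (f k)) * γ j * γ j).trace := by
          rw [mul_assoc _ (γ j) (γ j), hγ.sq j, mul_one]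
      _ = (γ j * (Gam γ * wd (fun k => γ (f k)) * γ j)).trace := Matrix.trace_mul_comm _ _
      _ = (-(Gam γ * wd (fun k => γ (f k)))).trace := by
          congr 1
          have h4 : γ j * Gam γ = -(Gam γ * γ j) := by rw [h1 j, neg_neg]
          rw [← mul_assoc, ← mul_assoc, h4, neg_mul, mul_assoc (Gam γ), hW, neg_mul,
            mul_assoc (Gam γ), mul_assoc (wd _), hγ.sq j, mul_one]
      _ = _ := Matrix.trace_neg _
  have h4 : (2 : ℂ) * (Gam γ * wd (fun k => γ (f k))).trace = 0 := by linear_combination h3
  exact (mul_eq_zero.1 h4).resolve_left two_ne_zero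

end Run7.h64.CL
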