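import Pool.Agent.Run7.h450.CS.Iface

/-!
# Piece WDER of project CL (helper450): the derivative of a word of inverses
-/

set_option autoImplicit false
open Filter Topology Matrix MeasureTheory

namespace Run7.h499.CL

open Run7.h450.CL

theorem wd_zero {R : Type} [Monoid R] (u : Fin 0 → R) : wd u = 1 := by
  simp [wd]

theorem wd_succ {R : Type} [Monoid R] {p : ℕ} (u : Fin (p + 1) → R) :
    wd u = u 0 * wd (fun k : Fin p => u k.succ) := by
  simp [wd, List.ofFn_succ]

theorem ins_zero {α : Type} {p : ℕ} (l : Fin p) (i : α) (f : Fin (p + 1) → α) :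
    (Fin.insertNth (l.succ).castSucc i f : Fin (p + 2) → α) 0 = f 0 := by
  have h : (0 : Fin (p + 2)) = (l.succ.castSucc).succAbove 0 := by
    rw [Fin.succAbove_of_castSucc_lt]
    · rfl
    · rw [Fin.lt_def]; simp
  rw [h]
  exact Fin.insertNth_apply_succAbove (α := fun _ => α) _ _ _ _

theorem ins_succ {α : Type} {p : ℕ} (l : Fin p) (i : α) (f : Fin (p + 1) → α) (k : Fin (p + 1)) :
    (Fin.insertNth (l.succ).castSucc i f : Fin (p + 2) → α) k.succ =
      (Fin.insertNth l.castSucc i (fun k : Fin p => f k.succ) : Fin (p + 1) → α) k := by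
  have hs : l.succ.castSucc = l.castSucc.succ := by
    apply Fin.ext; simp
  rcases Fin.eq_self_or_eq_succAbove l.castSucc k with h | ⟨j, h⟩
  · rw [h, Fin.insertNth_apply_same (α := fun _ => α), ← hs, Fin.insertNth_apply_same (α := fun _ => α)]
  · rw [h, Fin.insertNth_apply_succAbove (α := fun _ => α), hs, ← Fin.succ_succAbove_succ,
      Fin.insertNth_apply_succAbove (α := fun _ => α)]

section

attribute [local instance] Matrix.linftyOpNormedRing Matrix.linftyOpNormedAlgebra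

variable {K : Type} [Fintype K] [DecidableEq K]

/-- `x ↦ ∑ x_j γ_j` as a linear map -/
noncomputable def slL {m : ℕ} (γ : Fin m → Matrix K K ℂ) : (Fin m → ℝ) →ₗ[ℝ] Matrix K K ℂ where
  toFun := sl γ
  map_add' x y := by
    unfold sl
    rw [← Finset.sum_add_distrib]
    refine Finset.sum_congr rfl fun j _ => ?_
    rw [Pi.add_apply, Complex.ofReal_add, add_smul]
  map_smul' c x := by
    unfold sl
    rw [RingHom.id_apply, Finset.smul_sum]
    refine Finset.sum_congr rfl fun j _ => ?_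
    rw [Pi.smul_apply, smul_eq_mul, Complex.ofReal_mul, mul_smul, Complex.coe_smul]

theorem sl_single {m : ℕ} (γ : Fin m → Matrix K K ℂ) (i : Fin m) : sl γ (Pi.single i 1) = γ i := by
  unfold sl
  rw [Finset.sum_eq_single i]
  · simp
  · intro j _ hj
    simp [Pi.single_eq_of_ne hj]
  · intro h; exact absurd (Finset.mem_univ i) h

theorem der_inv {m : ℕ} (γ : Fin m → Matrix K K ℂ) (D0 : Matrix K K ℂ) (x : Fin m → ℝ)
    (hx : (D0 - sl γ x).det ≠ 0) :
    ∃ L : (Fin m → ℝ) →L[ℝ] Matrix K K ℂ,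
      HasFDerivAt (fun x => (D0 - sl γ x)⁻¹) L x ∧
      ∀ v, L v = (D0 - sl γ x)⁻¹ * sl γ v * (D0 - sl γ x)⁻¹ := by
  have : CompleteSpace (Matrix K K ℂ) := FiniteDimensional.complete ℂ _
  have hu : IsUnit (D0 - sl γ x) := by
    rw [Matrix.isUnit_iff_isUnit_det]
    exact isUnit_iff_ne_zero.2 hx
  obtain ⟨u, hu⟩ := hu
  have h1 : HasFDerivAt (fun x => D0 - sl γ x) (-(LinearMap.toContinuousLinearMap (slL γ))) x := by
    have h2 : HasFDerivAt (fun x => sl γ x) (LinearMap.toContinuousLinearMap (slL γ)) x :=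
      (LinearMap.toContinuousLinearMap (slL γ)).hasFDerivAt
    exact h2.const_sub D0
  have h3 := hasFDerivAt_ringInverse (𝕜 := ℝ) u
  rw [hu] at h3
  have h4 := h3.comp x h1
  refine ⟨_, (h4.congr_of_eventuallyEq (Filter.Eventually.of_forall fun y => ?_)), fun v => ?_⟩
  · show (D0 - sl γ y)⁻¹ = Ring.inverse (D0 - sl γ y)
    exact Matrix.nonsing_inv_eq_ringInverse _
  · have hi : (↑u⁻¹ : Matrix K K ℂ) = (D0 - sl γ x)⁻¹ := by
      rw [← hu, Matrix.coe_units_inv]
    have h5 : -((↑u⁻¹ : Matrix K K ℂ) * (-(sl γ v)) * (↑u⁻¹ : Matrix K K ℂ)) =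
        (D0 - sl γ x)⁻¹ * sl γ v * (D0 - sl γ x)⁻¹ := by
      rw [hi]; simp
    exact h5

theorem der_wd {m : ℕ} (γ : Fin m → Matrix K K ℂ) (D0 : Matrix K K ℂ) (x : Fin m → ℝ)
    (hx : (D0 - sl γ x).det ≠ 0) : ∀ (p : ℕ) (f : Fin p → Fin m),
    ∃ L : (Fin m → ℝ) →L[ℝ] Matrix K K ℂ,
      HasFDerivAt (fun x => wd (fun k : Fin p => (D0 - sl γ x)⁻¹ * γ (f k))) L x ∧
      ∀ i, L (Pi.single i 1) = ∑ l : Fin p, wd (fun k : Fin (p + 1) =>
        (D0 - sl γ x)⁻¹ * γ ((Fin.insertNth l.castSucc i f : Fin (p + 1) → Fin m) k)) := by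
  obtain ⟨G', hG', hG⟩ := der_inv γ D0 x hx
  intro p
  induction p with
  | zero =>
    intro f
    refine ⟨0, ?_, fun i => by simp⟩
    have : (fun x : Fin m → ℝ => wd (fun k : Fin 0 => (D0 - sl γ x)⁻¹ * γ (f k))) =
        fun _ => (1 : Matrix K K ℂ) := by
      funext y; exact wd_zero _
    rw [this]
    exact hasFDerivAt_const _ _
  | succ p ih =>
    intro f
    obtain ⟨L, hL, hLi⟩ := ih (fun k => f k.succ)
    have h1 : HasFDerivAt (fun x => (D0 - sl γ x)⁻¹ * γ (f 0)) _ x := hG'.mul_const' (γ (f 0))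
    have h2 := h1.mul' hL
    refine ⟨_, (h2.congr_of_eventuallyEq (Filter.Eventually.of_forall fun y => ?_)), fun i => ?_⟩
    · show wd _ = _
      rw [wd_succ]
      rfl
    · rw [Fin.sum_univ_succ]
      have e1 : ∀ l : Fin p, wd (fun k : Fin (p + 2) => (D0 - sl γ x)⁻¹ *
          γ ((Fin.insertNth l.succ.castSucc i f : Fin (p + 2) → Fin m) k)) =
          ((D0 - sl γ x)⁻¹ * γ (f 0)) * wd (fun k : Fin (p + 1) => (D0 - sl γ x)⁻¹ *
            γ ((Fin.insertNth l.castSucc i (fun k : Fin p => f k.succ) : Fin (p + 1) → Fin m) k)) := by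
        intro l
        rw [wd_succ, ins_zero]
        simp only [ins_succ]
      have e2 : wd (fun k : Fin (p + 2) => (D0 - sl γ x)⁻¹ *
          γ ((Fin.insertNth (Fin.castSucc 0) i f : Fin (p + 2) → Fin m) k)) =
          ((D0 - sl γ x)⁻¹ * γ i) * (((D0 - sl γ x)⁻¹ * γ (f 0)) *
            wd (fun k : Fin p => (D0 - sl γ x)⁻¹ * γ (f k.succ))) := by
        rw [wd_succ, wd_succ]
        simp only [Fin.castSucc_zero, Fin.insertNth_zero]
        rfl
      rw [e2]
      simp only [e1]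
      rw [← Finset.mul_sum, ← hLi]
      have h3 : ((D0 - sl γ x)⁻¹ * γ (f 0)) * L (Pi.single i 1) +
          (G' (Pi.single i 1) * γ (f 0)) * wd (fun k : Fin p => (D0 - sl γ x)⁻¹ * γ (f k.succ)) =
          ((D0 - sl γ x)⁻¹ * γ i) * (((D0 - sl γ x)⁻¹ * γ (f 0)) *
            wd (fun k : Fin p => (D0 - sl γ x)⁻¹ * γ (f k.succ))) +
          ((D0 - sl γ x)⁻¹ * γ (f 0)) * L (Pi.single i 1) := by
        rw [hG, sl_single, add_comm]
        congr 1
        simp only [mul_assoc]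
      exact h3

/-- Piece WDER. -/
theorem t_WDER : S_WDER := by
  intro K _ _ p γ D0 x hx f
  obtain ⟨L, hL, hLi⟩ := der_wd γ D0 x hx p f
  let T : Matrix K K ℂ →ₗ[ℝ] ℂ :=
    { toFun := fun A => (Gam γ * A).trace
      map_add' := fun A B => by rw [mul_add, Matrix.trace_add]
      map_smul' := fun c A => by rw [Matrix.mul_smul, Matrix.trace_smul]; rfl }
  refine ⟨(LinearMap.toContinuousLinearMap T).comp L,
    (LinearMap.toContinuousLinearMap T).hasFDerivAt.comp x hL, fun i => ?_⟩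
  show (Gam γ * L (Pi.single i 1)).trace = _
  rw [hLi, Finset.mul_sum, Matrix.trace_sum]
  refine Finset.sum_congr rfl fun l _ => ?_
  congr 2
  unfold wd
  congr 2
  funext k
  rw [Fin.cons_apply_cycleRange]

end

end Run7.h499.CL
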