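import Mathlib
import Pool.Agent.Run7.h450.CS.Iface

/-!
# Piece WEXP of project CL
-/

set_option autoImplicit false
open Matrix

namespace Run7.h500.CL
open Run7.h450.CL

section
variable {K : Type} [Fintype K] [DecidableEq K]

theorem sl_single {m : ℕ} (γ : Fin m → Matrix K K ℂ) (i : Fin m) :
    sl γ (Pi.single i 1) = γ i := by
  unfold sl
  rw [Finset.sum_eq_single i]
  · simp
  · intro j _ hj
    simp [Pi.single_eq_of_ne hj]
  · simp

theorem sl_comb {m : ℕ} (γ : Fin m → Matrix K K ℂ) (a b : ℝ) (x y : Fin m → ℝ) :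
    sl γ (a • x - b • y) = (a : ℂ) • sl γ x - (b : ℂ) • sl γ y := by
  unfold sl
  rw [Finset.smul_sum, Finset.smul_sum, ← Finset.sum_sub_distrib]
  refine Finset.sum_congr rfl fun j _ => ?_
  simp only [Pi.sub_apply, Pi.smul_apply, smul_eq_mul, Complex.ofReal_sub, Complex.ofReal_mul,
    sub_smul, mul_smul]

theorem sl_mul {m : ℕ} {γ : Fin m → Matrix K K ℂ} (hγ : Cl γ) (x : Fin m → ℝ) (a : Fin m) :
    sl γ x * γ a = ((2 * x a : ℝ) : ℂ) • (1 : Matrix K K ℂ) - γ a * sl γ x := by
  rw [eq_sub_iff_add_eq]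
  unfold sl
  rw [Finset.sum_mul, Finset.mul_sum, ← Finset.sum_add_distrib, Finset.sum_eq_single a]
  · rw [smul_mul_assoc, mul_smul_comm, hγ.sq, ← add_smul]
    congr 1
    push_cast
    ring
  · intro j _ hj
    rw [smul_mul_assoc, mul_smul_comm, hγ.anti j a hj, smul_neg, neg_add_cancel]
  · simp

theorem sl_sq {m : ℕ} {γ : Fin m → Matrix K K ℂ} (hγ : Cl γ) (x : Fin m → ℝ) :
    sl γ x * sl γ x = ((∑ j, x j ^ 2 : ℝ) : ℂ) • (1 : Matrix K K ℂ) := by
  have h : sl γ x * sl γ x = ((2 * ∑ j, x j ^ 2 : ℝ) : ℂ) • (1 : Matrix K K ℂ) -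
      sl γ x * sl γ x := by
    conv_lhs => 
      rw [show sl γ x * sl γ x = sl γ x * ∑ j, ((x j : ℝ) : ℂ) • γ j from rfl]
    rw [Finset.mul_sum]
    have : ∀ j, sl γ x * ((x j : ℝ) : ℂ) • γ j = ((2 * x j ^ 2 : ℝ) : ℂ) • (1 : Matrix K K ℂ) -
        (((x j : ℝ) : ℂ) • γ j) * sl γ x := by
      intro j
      rw [mul_smul_comm, sl_mul hγ, smul_sub, smul_smul, smul_mul_assoc]
      congr 2
      push_cast
      ring
    rw [Finset.sum_congr rfl fun j _ => this j, Finset.sum_sub_distrib, ← Finset.sum_smul,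
      ← Finset.sum_mul]
    congr 2
    push_cast
    rw [Finset.mul_sum]
  have h2 : (2 : ℂ) • (sl γ x * sl γ x) =
      (2 : ℂ) • (((∑ j, x j ^ 2 : ℝ) : ℂ) • (1 : Matrix K K ℂ)) := by
    rw [two_smul]
    nth_rewrite 1 [h]
    rw [sub_add_cancel, smul_smul]
    congr 1
    push_cast
    ring
  exact smul_right_injective _ (two_ne_zero) h2

theorem sl_sandwich {m : ℕ} {γ : Fin m → Matrix K K ℂ} (hγ : Cl γ) (x : Fin m → ℝ) (a : Fin m) :
    sl γ x * γ a * sl γ x =
      sl γ ((2 * x a) • x - (∑ j, x j ^ 2) • (Pi.single a 1 : Fin m → ℝ)) := by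
  rw [sl_comb, sl_single, sl_mul hγ, sub_mul, smul_mul_assoc, one_mul, mul_assoc, sl_sq hγ,
    mul_smul_comm, mul_one]

end

theorem pw_succ {R : Type} [Monoid R] (f : ℕ → R) (n : ℕ) :
    (List.ofFn (fun k : Fin (n + 1) => f k)).prod =
      (List.ofFn (fun k : Fin n => f k)).prod * f n := by
  rw [List.ofFn_succ', List.prod_concat]
  simp

theorem pw_pair {R : Type} [Monoid R] (u : R) (g c : ℕ → R)
    (hc : ∀ j, c (2 * j) = u * g (2 * j) * u) (hc' : ∀ j, c (2 * j + 1) = g (2 * j + 1)) (q : ℕ) :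
    (List.ofFn (fun k : Fin (2 * q) => u * g k)).prod =
      (List.ofFn (fun k : Fin (2 * q) => c k)).prod := by
  induction q with
  | zero => simp
  | succ q ih =>
    have e : 2 * (q + 1) = 2 * q + 1 + 1 := by ring
    rw [e, pw_succ (fun k => u * g k), pw_succ (fun k => u * g k), pw_succ c, pw_succ c, ih, hc,
      hc']
    simp only [mul_assoc]

/-- The determinant. -/
theorem det_rows (r : ℕ) (x : Fin (2 * r + 1 + 1) → ℝ) (N : ℝ)
    (τ : Equiv.Perm (Fin (2 * r + 1 + 1))) (k0 : Fin (2 * r + 1 + 1)) (hk0 : (k0 : ℕ) = 2 * r)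
    (a : Fin (2 * r + 1 + 1) → Fin (2 * r + 1 + 1) → ℝ)
    (h0 : a k0 = x)
    (h1 : ∀ k : Fin (2 * r + 1 + 1), (k : ℕ) < 2 * r → Even (k : ℕ) →
      a k = (2 * x (τ (k0.cycleRange k))) • x - N • Pi.single (τ (k0.cycleRange k)) 1)
    (h2 : ∀ k : Fin (2 * r + 1 + 1), k ≠ k0 → ¬ ((k : ℕ) < 2 * r ∧ Even (k : ℕ)) →
      a k = Pi.single (τ (k0.cycleRange k)) 1) :
    (Matrix.of a).det = ((Equiv.Perm.sign τ : ℤ) : ℝ) * x (τ 0) * (-N) ^ r := by
  classical
  let A5 : Matrix (Fin (2 * r + 1 + 1)) (Fin (2 * r + 1 + 1)) ℝ :=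
    Matrix.of fun l => if l = 0 then x else Pi.single (τ l) 1
  let A3 : Matrix (Fin (2 * r + 1 + 1)) (Fin (2 * r + 1 + 1)) ℝ :=
    A5.submatrix k0.cycleRange id
  let v : Fin (2 * r + 1 + 1) → ℝ := fun k => if (k : ℕ) < 2 * r ∧ Even (k : ℕ) then -N else 1
  let c : Fin (2 * r + 1 + 1) → ℝ := fun k =>
    if (k : ℕ) < 2 * r ∧ Even (k : ℕ) then 2 * x (τ (k0.cycleRange k)) else 0
  have hs0 : k0.cycleRange k0 = 0 := Fin.cycleRange_self k0
  have hs1 : ∀ k, k ≠ k0 → k0.cycleRange k ≠ 0 := by
    intro k hk h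
    exact hk (k0.cycleRange.injective (h.trans hs0.symm))
  have e1 : (Matrix.of a).det = (Matrix.of fun i j => v i * A3 i j).det := by
    apply Matrix.det_eq_of_forall_row_eq_smul_add_const c k0
    · simp [c, hk0]
    · intro i j
      by_cases hi : i = k0
      · subst hi
        simp [v, c, A3, A5, hs0, hk0, h0]
      · by_cases hi2 : (i : ℕ) < 2 * r ∧ Even (i : ℕ)
        · simp only [Matrix.of_apply, h1 i hi2.1 hi2.2, v, c, if_pos hi2, A3, A5,
            Matrix.submatrix_apply, id, if_neg (hs1 i hi), hs0, if_true, Pi.sub_apply,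
            Pi.smul_apply, smul_eq_mul]
          simp [hk0]
          ring
        · simp [Matrix.of_apply, h2 i hi hi2, v, c, if_neg hi2, A3, A5, if_neg (hs1 i hi)]
  have e2 : (Matrix.of fun i j => v i * A3 i j).det = (∏ i, v i) * A3.det :=
    Matrix.det_mul_column v A3
  have e3 : ∏ i, v i = (-N) ^ r := by
    have : ∀ q n : ℕ, 2 * q ≤ n → ∏ i : Fin n, (if (i : ℕ) < 2 * q ∧ Even (i : ℕ) then -N else 1) = (-N) ^ q := by
      intro q
      intro n hn
      rw [Fin.prod_univ_eq_prod_range (fun i => if i < 2 * q ∧ Even i then -N else (1 : ℝ)) n]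
      rw [Finset.prod_ite, Finset.prod_const_one, mul_one, Finset.prod_const]
      congr 1
      have : (Finset.range n).filter (fun i => i < 2 * q ∧ Even i) =
          (Finset.range q).image (fun j => 2 * j) := by
        ext i
        simp only [Finset.mem_filter, Finset.mem_range, Finset.mem_image]
        constructor
        · rintro ⟨_, h, ⟨j, hj⟩⟩
          exact ⟨j, by omega, by omega⟩
        · rintro ⟨j, hj, rfl⟩
          exact ⟨by omega, by omega, ⟨j, by omega⟩⟩
      rw [this, Finset.card_image_of_injective, Finset.card_range]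
      intro i j h
      simpa using h
    exact this r _ (by omega)
  have e4 : A3.det = A5.det := by
    have := Matrix.det_permute k0.cycleRange A5
    rw [show A3 = A5.submatrix k0.cycleRange id from rfl, this, Fin.sign_cycleRange, hk0]
    simp
  have e5 : (A5.submatrix id τ).det = x (τ 0) := by
    rw [Matrix.det_of_upperTriangular]
    · rw [Fin.prod_univ_succ]
      have : ∀ i : Fin (2 * r + 1), (A5.submatrix id τ) i.succ i.succ = 1 := by
        intro i
        simp [A5, Fin.succ_ne_zero]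
      rw [Finset.prod_congr rfl fun i _ => this i]
      simp [A5]
    · intro i j hij
      have hij' : j < i := hij
      have hi : i ≠ 0 := by
        rintro rfl
        exact absurd hij' (by simp)
      simp only [A5, Matrix.submatrix_apply, id, Matrix.of_apply, if_neg hi]
      rw [Pi.single_eq_of_ne]
      intro h
      exact hij'.ne (τ.injective h)
  have e6 : (A5.submatrix id τ).det = ((Equiv.Perm.sign τ : ℤ) : ℝ) * A5.det :=
    Matrix.det_permute' τ A5
  have e7 : A5.det = ((Equiv.Perm.sign τ : ℤ) : ℝ) * x (τ 0) := by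
    rw [← e5, e6, ← mul_assoc]
    have : ((Equiv.Perm.sign τ : ℤ) : ℝ) * ((Equiv.Perm.sign τ : ℤ) : ℝ) = 1 := by
      rcases Int.units_eq_one_or (Equiv.Perm.sign τ) with h | h <;> simp [h]
    rw [this, one_mul]
  rw [e1, e2, e3, e4, e7]
  ring

theorem t_WEXP : S_DET → S_WEXP := by
  intro hDET K _ _ p γ hp hγ x τ
  obtain ⟨r, rfl⟩ := hp
  have er : (2 * r + 1 - 1) / 2 = r := by omega
  rw [er]
  set k0 : Fin (2 * r + 1 + 1) := ⟨2 * r, by omega⟩ with hk0def
  have hk0 : (k0 : ℕ) = 2 * r := rfl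
  set N : ℝ := ∑ j, x j ^ 2 with hN
  set u := sl γ x with hu
  let a : Fin (2 * r + 1 + 1) → Fin (2 * r + 1 + 1) → ℝ := fun k =>
    if k = k0 then x else
      if (k : ℕ) < 2 * r ∧ Even (k : ℕ) then
        (2 * x (τ (k0.cycleRange k))) • x - N • Pi.single (τ (k0.cycleRange k)) 1
      else Pi.single (τ (k0.cycleRange k)) 1
  let g : ℕ → Matrix K K ℂ := fun k => if h : k < 2 * r + 1 then γ (τ (Fin.succ ⟨k, h⟩)) else 1
  let c : ℕ → Matrix K K ℂ := fun k => if Even k then u * g k * u else g k
  let d : ℕ → Matrix K K ℂ := fun k => if k < 2 * r then c k else if k = 2 * r then u else g (2 * r)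
  have hw : wd (fun k : Fin (2 * r + 1) => u * γ (τ k.succ)) = wd (fun k => sl γ (a k)) := by
    have h1 : wd (fun k : Fin (2 * r + 1) => u * γ (τ k.succ)) =
        (List.ofFn (fun k : Fin (2 * r + 1) => (fun n => u * g n) (k : ℕ))).prod := by
      unfold wd
      congr 1
      congr 1
      funext k
      simp only [g, k.2, dif_pos]
    have h2 : wd (fun k => sl γ (a k)) = (List.ofFn (fun k : Fin (2 * r + 1 + 1) => d k)).prod := by
      unfold wd
      congr 1
      congr 1
      funext k
      by_cases hk : k = k0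
      · simp only [a, d, hk, if_true, hk0, lt_irrefl, if_false]
        rfl
      · have hk' : (k : ℕ) ≠ 2 * r := fun h => hk (Fin.ext h)
        by_cases hlt : (k : ℕ) < 2 * r
        · have hcr : k0.cycleRange k = Fin.succ ⟨(k : ℕ), by omega⟩ := by
            rw [Fin.cycleRange_of_lt (show k < k0 from hlt)]
            apply Fin.ext
            rw [Fin.val_add_one_of_lt (show k < Fin.last _ from by
              rw [Fin.lt_def]; simp only [Fin.val_last]; omega)]
            simp
          have hg : g k = γ (τ (k0.cycleRange k)) := by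
            rw [hcr]
            simp only [g]
            rw [dif_pos (by omega)]
          by_cases hev : Even (k : ℕ)
          · simp only [a, d, c, if_neg hk, hlt, hev, and_self, if_true]
            rw [hg, ← sl_sandwich hγ]
          · simp only [a, d, c, if_neg hk, hlt, hev, and_false, if_true, if_false]
            rw [hg, sl_single]
        · have hk3 : (k : ℕ) = 2 * r + 1 := by
            have := k.2
            omega
          have hcr : k0.cycleRange k = Fin.succ ⟨2 * r, by omega⟩ := by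
            rw [Fin.cycleRange_of_gt (show k0 < k by rw [Fin.lt_def, hk3]; omega)]
            apply Fin.ext
            simp [hk3]
          have hg : g (2 * r) = γ (τ (k0.cycleRange k)) := by
            rw [hcr]
            simp only [g]
            rw [dif_pos (by omega)]
          simp only [a, d, if_neg hk, hlt, false_and, if_false, hk']
          rw [hg, sl_single]
    rw [h1, h2, pw_succ (fun n => u * g n), pw_pair u g c (by intro j; simp [c])
      (by intro j; simp [c]), pw_succ d, pw_succ d]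
    have h3 : d (2 * r) = u := by simp [d]
    have h4 : d (2 * r + 1) = g (2 * r) := by simp [d]
    have h5 : (List.ofFn (fun k : Fin (2 * r) => c k)) = List.ofFn (fun k : Fin (2 * r) => d k) := by
      congr 1
      funext k
      simp [d, k.2]
    rw [h3, h4, h5, mul_assoc]
  rw [hw, hDET K (2 * r + 1) γ ⟨r, rfl⟩ hγ a,
    det_rows r x N τ k0 hk0 a (by simp [a])
      (by
        intro k hk hev
        have hne : k ≠ k0 := fun h => by rw [h, hk0] at hk; exact lt_irrefl _ hk
        simp only [a, if_neg hne, hk, hev, and_self, if_true])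
      (by
        intro k hk hnot
        simp only [a, if_neg hk, if_neg hnot])]
  unfold sg
  push_cast
  ring

end Run7.h500.CL
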